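import Pool.Agent.H474.SET.Pr

/-!
# Translates of the zeros
-/

set_option autoImplicit false

open Complex Filter Topology
open scoped ComplexConjugate
open scoped ArithmeticFunction.vonMangoldt

namespace Pool.Agent.H474.SET

open Pool.Agent.H474.SHP (UU)
open Pool.Agent.H474.SYM (goodE_dir)
open H370 (mult zset NN)

section one

variable {q : ℕ} [NeZero q] {χ : DirichletCharacter ℂ q}

lemma zfin (hχ : χ.IsPrimitive) (a b : ℝ) (ha : 1 ≤ a) :
    (zset (DirichletCharacter.LFunction χ) a b).Finite := by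
  obtain ⟨A, hA, hF⟩ := goodE_dir hχ
  exact W388.zset_finite_D hA le_rfl hF a b ha

lemma im_shift (s : ℂ) (τ : ℝ) : (s + I * τ).im = s.im + τ := by simp

lemma re_shift (s : ℂ) (τ : ℝ) : (s + I * τ).re = s.re := by simp

lemma zset_shift (τ a b : ℝ) : (fun s : ℂ => s + I * τ) '' zset (LS χ τ) a b =
    zset (DirichletCharacter.LFunction χ) (a + τ) (b + τ) := by
  ext s
  constructor
  · rintro ⟨s, ⟨g1, g2, g3, g4, g5⟩, rfl⟩
    refine ⟨?_, ?_, ?_, ?_, g5⟩
    · show 0 < (s + I * τ).re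
      rw [re_shift]; exact g1
    · show (s + I * τ).re < 1
      rw [re_shift]; exact g2
    · show a + τ < (s + I * τ).im
      rw [im_shift]; linarith
    · show (s + I * τ).im ≤ b + τ
      rw [im_shift]; linarith
  · rintro ⟨g1, g2, g3, g4, g5⟩
    have e : s - I * τ + I * τ = s := by ring
    refine ⟨s - I * τ, ⟨?_, ?_, ?_, ?_, ?_⟩, e⟩
    · simpa using g1
    · simpa using g2
    · simp; linarith
    · simp; linarith
    · unfold LS
      rw [e]; exact g5

lemma shift_inj (τ : ℝ) : Function.Injective fun s : ℂ => s + I * τ := add_left_injective _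

lemma ncard_shift (τ a b : ℝ) : (zset (LS χ τ) a b).ncard =
    (zset (DirichletCharacter.LFunction χ) (a + τ) (b + τ)).ncard := by
  rw [← zset_shift, Set.ncard_image_of_injective _ (shift_inj τ)]

lemma fin_shift (hχ : χ.IsPrimitive) (τ a b : ℝ) (ha : 1 ≤ a + τ) : (zset (LS χ τ) a b).Finite := by
  have := zfin hχ (a + τ) (b + τ) ha
  rw [← zset_shift] at this
  exact this.of_finite_image (shift_inj τ).injOn

/-- short ranges, shifted -/
lemma short' (hχ : χ.IsPrimitive) {c : ℝ} (hc : 1 ≤ c) (τ α h : ℝ) {ε : ℝ} (hε : 0 < ε) :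
    ∀ᶠ T : ℝ in atTop, ((zset (LS χ τ) (c * T + α) (c * T + α + h)).ncard : ℝ) ≤ ε * UU T := by
  filter_upwards [short hχ hc (α + τ) h hε] with T h1
  rw [ncard_shift]
  have e1 : c * T + α + τ = c * T + (α + τ) := by ring
  have e2 : c * T + α + h + τ = c * T + (α + τ) + h := by ring
  rw [e1, e2]
  exact h1

/-- the zeros of `L(s)` are not fewer than those of `L(s + iτ)` -/
lemma cmp_le (hχ : χ.IsPrimitive) (τ : ℝ) {ε : ℝ} (hε : 0 < ε) : ∀ᶠ T : ℝ in atTop,
    ((zset (LS χ τ) T (2 * T)).ncard : ℝ) ≤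
      (zset (DirichletCharacter.LFunction χ) T (2 * T)).ncard + ε * UU T := by
  filter_upwards [short hχ (c := 1) le_rfl (-|τ|) |τ| (ε := ε / 2) (by positivity),
    short hχ (c := 2) (by norm_num) 0 |τ| (ε := ε / 2) (by positivity),
    eventually_ge_atTop (|τ| + 1)] with T h1 h2 h3
  rw [ncard_shift]
  have ha := abs_nonneg τ
  have f1 := zfin hχ (1 * T + -|τ|) (1 * T + -|τ| + |τ|) (by linarith)
  have f2 := zfin hχ (2 * T + 0) (2 * T + 0 + |τ|) (by linarith)
  have f3 := zfin hχ T (2 * T) (by linarith)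
  have h4 : (zset (DirichletCharacter.LFunction χ) (T + τ) (2 * T + τ)).ncard ≤
      (zset (DirichletCharacter.LFunction χ) (1 * T + -|τ|) (1 * T + -|τ| + |τ|) ∪
        zset (DirichletCharacter.LFunction χ) T (2 * T) ∪
        zset (DirichletCharacter.LFunction χ) (2 * T + 0) (2 * T + 0 + |τ|)).ncard := by
    refine Set.ncard_le_ncard ?_ ((f1.union f3).union f2)
    rintro s ⟨g1, g2, g3, g4, g5⟩
    have k1 := le_abs_self τ
    have k2 := neg_abs_le τ
    by_cases c1 : s.im ≤ T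
    · exact Or.inl (Or.inl ⟨g1, g2, by linarith, by linarith, g5⟩)
    · push Not at c1
      by_cases c2 : s.im ≤ 2 * T
      · exact Or.inl (Or.inr ⟨g1, g2, c1, c2, g5⟩)
      · push Not at c2
        exact Or.inr ⟨g1, g2, by linarith, by linarith, g5⟩
  have h5 : ((zset (DirichletCharacter.LFunction χ) (T + τ) (2 * T + τ)).ncard : ℝ) ≤
      (zset (DirichletCharacter.LFunction χ) (1 * T + -|τ|) (1 * T + -|τ| + |τ|)).ncard +
        (zset (DirichletCharacter.LFunction χ) T (2 * T)).ncard +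
        (zset (DirichletCharacter.LFunction χ) (2 * T + 0) (2 * T + 0 + |τ|)).ncard := by
    have k := h4.trans ((Set.ncard_union_le _ _).trans (Nat.add_le_add_right (Set.ncard_union_le _ _) _))
    exact_mod_cast k
  linarith

/-- the zeros of `L(s + iτ)` are not fewer than those of `L(s)` -/
lemma cmp_ge (hχ : χ.IsPrimitive) (τ : ℝ) {ε : ℝ} (hε : 0 < ε) : ∀ᶠ T : ℝ in atTop,
    ((zset (DirichletCharacter.LFunction χ) T (2 * T)).ncard : ℝ) ≤
      (zset (LS χ τ) T (2 * T)).ncard + ε * UU T := by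
  filter_upwards [short hχ (c := 1) le_rfl 0 |τ| (ε := ε / 2) (by positivity),
    short hχ (c := 2) (by norm_num) (-|τ|) |τ| (ε := ε / 2) (by positivity),
    eventually_ge_atTop (|τ| + 1)] with T h1 h2 h3
  rw [ncard_shift]
  have ha := abs_nonneg τ
  have k1 := le_abs_self τ
  have k2 := neg_abs_le τ
  have f1 := zfin hχ (1 * T + 0) (1 * T + 0 + |τ|) (by linarith)
  have f2 := zfin hχ (2 * T + -|τ|) (2 * T + -|τ| + |τ|) (by linarith)
  have f3 := zfin hχ (T + τ) (2 * T + τ) (by linarith)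
  have h4 : (zset (DirichletCharacter.LFunction χ) T (2 * T)).ncard ≤
      (zset (DirichletCharacter.LFunction χ) (1 * T + 0) (1 * T + 0 + |τ|) ∪
        zset (DirichletCharacter.LFunction χ) (T + τ) (2 * T + τ) ∪
        zset (DirichletCharacter.LFunction χ) (2 * T + -|τ|) (2 * T + -|τ| + |τ|)).ncard := by
    refine Set.ncard_le_ncard ?_ ((f1.union f3).union f2)
    rintro s ⟨g1, g2, g3, g4, g5⟩
    by_cases c1 : s.im ≤ T + τ
    · exact Or.inl (Or.inl ⟨g1, g2, by linarith, by linarith, g5⟩)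
    · push Not at c1
      by_cases c2 : s.im ≤ 2 * T + τ
      · exact Or.inl (Or.inr ⟨g1, g2, c1, c2, g5⟩)
      · push Not at c2
        exact Or.inr ⟨g1, g2, by linarith, by linarith, g5⟩
  have h5 : ((zset (DirichletCharacter.LFunction χ) T (2 * T)).ncard : ℝ) ≤
      (zset (DirichletCharacter.LFunction χ) (1 * T + 0) (1 * T + 0 + |τ|)).ncard +
        (zset (DirichletCharacter.LFunction χ) (T + τ) (2 * T + τ)).ncard +
        (zset (DirichletCharacter.LFunction χ) (2 * T + -|τ|) (2 * T + -|τ| + |τ|)).ncard := by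
    have k := h4.trans ((Set.ncard_union_le _ _).trans (Nat.add_le_add_right (Set.ncard_union_le _ _) _))
    exact_mod_cast k
  linarith

/-- the points `s` such that one of `s`, `s + it`, …, `s + i(n-1)t` is a zero -/
def Un (χ : DirichletCharacter ℂ q) (t : ℝ) (n : ℕ) (a b : ℝ) : Set ℂ :=
  {s : ℂ | 0 < s.re ∧ s.re < 1 ∧ a < s.im ∧ s.im ≤ b ∧
    ∃ k : ℕ, k < n ∧ DirichletCharacter.LFunction χ (s + I * ((k * t : ℝ) : ℂ)) = 0}

/-- the zeros `s` such that `s + it` is not a zero -/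
def Yn (χ : DirichletCharacter ℂ q) (t : ℝ) (a b : ℝ) : Set ℂ :=
  {s : ℂ | 0 < s.re ∧ s.re < 1 ∧ a < s.im ∧ s.im ≤ b ∧ DirichletCharacter.LFunction χ s = 0 ∧
    DirichletCharacter.LFunction χ (s + I * (t : ℂ)) ≠ 0}

lemma Un_eq (t : ℝ) (n : ℕ) (a b : ℝ) :
    Un χ t n a b = ⋃ k : Fin n, zset (LS χ ((k : ℕ) * t)) a b := by
  ext s
  rw [Set.mem_iUnion]
  constructor
  · rintro ⟨g1, g2, g3, g4, k, hk, g5⟩
    exact ⟨⟨k, hk⟩, g1, g2, g3, g4, g5⟩
  · rintro ⟨k, g1, g2, g3, g4, g5⟩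
    exact ⟨g1, g2, g3, g4, k, k.2, g5⟩

lemma Un_fin (hχ : χ.IsPrimitive) (t : ℝ) (n : ℕ) (a b : ℝ) (ha : 1 + n * |t| ≤ a) :
    (Un χ t n a b).Finite := by
  rw [Un_eq]
  refine Set.finite_iUnion fun k => fin_shift hχ _ _ _ ?_
  have h1 : ((k : ℕ) : ℝ) ≤ n := by exact_mod_cast k.2.le
  have h2 : -(((k : ℕ) : ℝ) * |t|) ≤ (k : ℕ) * t := by
    have := neg_abs_le t
    nlinarith [Nat.cast_nonneg (α := ℝ) (k : ℕ)]
  have h3 : ((k : ℕ) : ℝ) * |t| ≤ n * |t| := mul_le_mul_of_nonneg_right h1 (abs_nonneg t)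
  linarith

lemma Un_short (hχ : χ.IsPrimitive) (t : ℝ) (n : ℕ) {c : ℝ} (hc : 1 ≤ c) (α h : ℝ) {ε : ℝ}
    (hε : 0 < ε) : ∀ᶠ T : ℝ in atTop,
    ((Un χ t n (c * T + α) (c * T + α + h)).ncard : ℝ) ≤ ε * UU T := by
  obtain ⟨η, hη, hηε⟩ : ∃ η : ℝ, 0 < η ∧ n * η ≤ ε := by
    refine ⟨ε / (n + 1), by positivity, ?_⟩
    rw [mul_div_assoc', div_le_iff₀ (by positivity)]
    nlinarith
  have h1 : ∀ᶠ T : ℝ in atTop, ∀ k : Fin n,
      ((zset (LS χ ((k : ℕ) * t)) (c * T + α) (c * T + α + h)).ncard : ℝ) ≤ η * UU T :=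
    eventually_all.2 fun k => short' hχ hc _ α h hη
  filter_upwards [h1, eventually_ge_atTop 1, eventually_ge_atTop (1 + n * |t| + |α|)] with T h1 h2 h3
  have hU : 0 ≤ UU T := Pool.Agent.H474.SHP.UU_nn h2
  have h4 : (Un χ t n (c * T + α) (c * T + α + h)).ncard ≤
      ∑ k : Fin n, (zset (LS χ ((k : ℕ) * t)) (c * T + α) (c * T + α + h)).ncard := by
    rw [Un_eq]
    exact Set.ncard_iUnion_le_of_fintype _
  have h5 : ((Un χ t n (c * T + α) (c * T + α + h)).ncard : ℝ) ≤
      ∑ k : Fin n, ((zset (LS χ ((k : ℕ) * t)) (c * T + α) (c * T + α + h)).ncard : ℝ) := by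
    exact_mod_cast h4
  refine h5.trans ((Finset.sum_le_sum fun k _ => h1 k).trans ?_)
  rw [Finset.sum_const, Finset.card_univ, Fintype.card_fin, nsmul_eq_mul, ← mul_assoc]
  exact mul_le_mul_of_nonneg_right hηε hU

lemma Un_step (hχ : χ.IsPrimitive) (t : ℝ) {n : ℕ} (hn : 1 ≤ n) {ε : ℝ} (hε : 0 < ε) :
    ∀ᶠ T : ℝ in atTop, ((Un χ t (n + 1) T (2 * T)).ncard : ℝ) ≤
      (Yn χ t T (2 * T)).ncard + (Un χ t n T (2 * T)).ncard + ε * UU T := by
  filter_upwards [Un_short hχ t n (c := 1) le_rfl (-|t|) |t| (ε := ε / 2) (by positivity),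
    Un_short hχ t n (c := 2) (by norm_num) 0 |t| (ε := ε / 2) (by positivity),
    eventually_ge_atTop (1 + n * |t| + |t|)] with T h1 h2 h3
  have ha := abs_nonneg t
  have hn0 : 0 ≤ (n : ℝ) * |t| := by positivity
  have k1 := le_abs_self t
  have k2 := neg_abs_le t
  have f1 := Un_fin hχ t n (1 * T + -|t|) (1 * T + -|t| + |t|) (by linarith)
  have f2 := Un_fin hχ t n (2 * T + 0) (2 * T + 0 + |t|) (by linarith)
  have f3 := Un_fin hχ t n T (2 * T) (by linarith)
  have f4 := Un_fin hχ t n (T + t) (2 * T + t) (by linarith)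
  have f5 : (Yn χ t T (2 * T)).Finite := by
    refine (zfin hχ T (2 * T) (by linarith)).subset ?_
    rintro s ⟨g1, g2, g3, g4, g5, -⟩
    exact ⟨g1, g2, g3, g4, g5⟩
  have f6 : ((fun s : ℂ => s + I * t) ⁻¹' Un χ t n (T + t) (2 * T + t)).Finite :=
    f4.preimage (shift_inj t).injOn
  have h4 : (Un χ t (n + 1) T (2 * T)).ncard ≤
      (Yn χ t T (2 * T) ∪ (fun s : ℂ => s + I * t) ⁻¹' Un χ t n (T + t) (2 * T + t)).ncard := by
    refine Set.ncard_le_ncard ?_ (f5.union f6)
    rintro s ⟨g1, g2, g3, g4, k, hk, g5⟩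
    rcases Nat.eq_zero_or_pos k with hk0 | hk0
    · subst hk0
      have g5' : DirichletCharacter.LFunction χ s = 0 := by simpa using g5
      by_cases hz : DirichletCharacter.LFunction χ (s + I * (t : ℂ)) = 0
      · right
        refine ⟨?_, ?_, ?_, ?_, 0, hn, ?_⟩
        · show 0 < (s + I * t).re
          rw [re_shift]; exact g1
        · show (s + I * t).re < 1
          rw [re_shift]; exact g2
        · show T + t < (s + I * t).im
          rw [im_shift]; linarith
        · show (s + I * t).im ≤ 2 * T + t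
          rw [im_shift]; linarith
        · simpa using hz
      · left
        exact ⟨g1, g2, g3, g4, g5', hz⟩
    · right
      refine ⟨?_, ?_, ?_, ?_, k - 1, by omega, ?_⟩
      · show 0 < (s + I * t).re
        rw [re_shift]; exact g1
      · show (s + I * t).re < 1
        rw [re_shift]; exact g2
      · show T + t < (s + I * t).im
        rw [im_shift]; linarith
      · show (s + I * t).im ≤ 2 * T + t
        rw [im_shift]; linarith
      · have e : s + I * t + I * (((k - 1 : ℕ) * t : ℝ) : ℂ) = s + I * ((k * t : ℝ) : ℂ) := by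
          have hk1 : (k : ℝ) = ((k - 1 : ℕ) : ℝ) + 1 := by
            rw [Nat.cast_sub hk0]; push_cast; ring
          rw [hk1]
          push_cast
          ring
        show DirichletCharacter.LFunction χ (s + I * t + I * (((k - 1 : ℕ) * t : ℝ) : ℂ)) = 0
        rw [e]
        exact g5
  have h5 : ((fun s : ℂ => s + I * t) ⁻¹' Un χ t n (T + t) (2 * T + t)).ncard ≤
      (Un χ t n (T + t) (2 * T + t)).ncard := by
    rw [← Set.ncard_image_of_injective _ (shift_inj t)]
    exact Set.ncard_le_ncard (Set.image_preimage_subset _ _) f4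
  have h6 : (Un χ t n (T + t) (2 * T + t)).ncard ≤
      (Un χ t n (1 * T + -|t|) (1 * T + -|t| + |t|) ∪ Un χ t n T (2 * T) ∪
        Un χ t n (2 * T + 0) (2 * T + 0 + |t|)).ncard := by
    refine Set.ncard_le_ncard ?_ ((f1.union f3).union f2)
    rintro s ⟨g1, g2, g3, g4, g5⟩
    by_cases c1 : s.im ≤ T
    · exact Or.inl (Or.inl ⟨g1, g2, by linarith, by linarith, g5⟩)
    · push Not at c1
      by_cases c2 : s.im ≤ 2 * T
      · exact Or.inl (Or.inr ⟨g1, g2, c1, c2, g5⟩)
      · push Not at c2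
        exact Or.inr ⟨g1, g2, by linarith, by linarith, g5⟩
  have h7 : ((Un χ t (n + 1) T (2 * T)).ncard : ℝ) ≤ (Yn χ t T (2 * T)).ncard +
      ((Un χ t n (1 * T + -|t|) (1 * T + -|t| + |t|)).ncard + (Un χ t n T (2 * T)).ncard +
        (Un χ t n (2 * T + 0) (2 * T + 0 + |t|)).ncard) := by
    have k := h4.trans ((Set.ncard_union_le _ _).trans (Nat.add_le_add_left (h5.trans (h6.trans
      ((Set.ncard_union_le _ _).trans (Nat.add_le_add_right (Set.ncard_union_le _ _) _)))) _))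
    exact_mod_cast k
  linarith

lemma Un_one (t a b : ℝ) : Un χ t 1 a b = zset (DirichletCharacter.LFunction χ) a b := by
  ext s
  constructor
  · rintro ⟨g1, g2, g3, g4, k, hk, g5⟩
    have : k = 0 := by omega
    subst this
    exact ⟨g1, g2, g3, g4, by simpa using g5⟩
  · rintro ⟨g1, g2, g3, g4, g5⟩
    exact ⟨g1, g2, g3, g4, 0, Nat.one_pos, by simpa using g5⟩

lemma Un_le (hχ : χ.IsPrimitive) (t : ℝ) (n : ℕ) {ε : ℝ} (hε : 0 < ε) :
    ∀ᶠ T : ℝ in atTop, ((Un χ t (n + 1) T (2 * T)).ncard : ℝ) ≤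
      (zset (DirichletCharacter.LFunction χ) T (2 * T)).ncard + n * (Yn χ t T (2 * T)).ncard +
        ε * UU T := by
  induction n generalizing ε with
  | zero =>
    filter_upwards [eventually_ge_atTop 1] with T hT
    have hU : 0 ≤ UU T := Pool.Agent.H474.SHP.UU_nn hT
    rw [Un_one]
    have := mul_nonneg hε.le hU
    push_cast
    linarith
  | succ n ih =>
    filter_upwards [ih (ε := ε / 2) (by positivity), Un_step hχ t (n := n + 1) (by omega) (ε := ε / 2)
      (by positivity)] with T h1 h2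
    push_cast
    linarith

/-- **translates of the zeros of one function** -/
theorem translate (hχ : χ.IsPrimitive) {t : ℝ} (ht : t ≠ 0) {ε : ℝ} (hε : 0 < ε) :
    ∀ᶠ T : ℝ in atTop, (25 / 18816 - ε) * UU T ≤ ((Yn χ t T (2 * T)).ncard : ℝ) := by
  obtain ⟨W, hW⟩ : ∃ W : ℝ, W = 15 * |t| := ⟨_, rfl⟩
  have hW0 : 0 ≤ W := by rw [hW]; positivity
  have k1 := le_abs_self t
  have k2 := neg_abs_le t
  have hk : ∀ k : Fin 16, 0 ≤ ((k : ℕ) : ℝ) * t + W := by
    intro k
    have h1 : ((k : ℕ) : ℝ) ≤ 15 := by exact_mod_cast (by omega : (k : ℕ) ≤ 15)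
    rw [hW]
    nlinarith [Nat.cast_nonneg (α := ℝ) (k : ℕ), abs_nonneg t]
  have hmain := unionpair (ι := Fin 16) (q := fun _ => q) (fun _ => χ) (fun _ => hχ)
    (fun k => ((k : ℕ) : ℝ) * t + W) hk (fun i j hij => Or.inr fun h => hij (by
      have h1 := mul_right_cancel₀ ht (add_right_cancel h)
      exact Fin.ext (by exact_mod_cast h1))) (by simp) (ε := ε) hε
  filter_upwards [hmain, Un_le hχ t 15 (ε := ε) hε, Un_short hχ t 16 (c := 2) (by norm_num) 0 W (ε := ε) hε,
    cmp_ge hχ W (ε := ε) hε, short hχ (c := 2) (by norm_num) 0 W (ε := ε) hε,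
    eventually_ge_atTop (1 + 16 * |t|), eventually_ge_atTop 1] with T hmain h1 h2 h3 h3' h4 h5
  have hU : 0 ≤ UU T := Pool.Agent.H474.SHP.UU_nn h5
  obtain ⟨m1, m2⟩ := hmain
  have ha := abs_nonneg t
  -- the union
  have f1 := Un_fin hχ t 16 T (2 * T) (by push_cast; linarith)
  have f2 := Un_fin hχ t 16 (2 * T + 0) (2 * T + 0 + W) (by push_cast; linarith)
  have h6 : (⋃ k : Fin 16, zset (LS χ (((k : ℕ) : ℝ) * t + W)) T (2 * T)).ncard ≤
      (Un χ t 16 T (2 * T) ∪ Un χ t 16 (2 * T + 0) (2 * T + 0 + W)).ncard := by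
    rw [← Set.ncard_image_of_injective _ (shift_inj W)]
    refine Set.ncard_le_ncard ?_ (f1.union f2)
    rintro _ ⟨s, hs, rfl⟩
    obtain ⟨k, g1, g2, g3, g4, g5⟩ := Set.mem_iUnion.1 hs
    have g5' : DirichletCharacter.LFunction χ (s + I * W + I * ((((k : ℕ) : ℝ) * t : ℝ) : ℂ)) = 0 := by
      have e : s + I * W + I * ((((k : ℕ) : ℝ) * t : ℝ) : ℂ) = s + I * (((((k : ℕ) : ℝ) * t + W : ℝ)) : ℂ) := by
        push_cast; ring
      rw [e]
      exact g5
    have k3 : 0 < (s + I * W).re := by rw [re_shift]; exact g1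
    have k4 : (s + I * W).re < 1 := by rw [re_shift]; exact g2
    have k5 : T < (s + I * W).im := by rw [im_shift]; linarith
    have k6 : (s + I * W).im ≤ 2 * T + W := by rw [im_shift]; linarith
    by_cases c1 : (s + I * W).im ≤ 2 * T
    · exact Or.inl ⟨k3, k4, k5, c1, k, k.2, g5'⟩
    · push Not at c1
      exact Or.inr ⟨k3, k4, by linarith, by linarith, k, k.2, g5'⟩
  have h7 : ((⋃ k : Fin 16, zset (LS χ (((k : ℕ) : ℝ) * t + W)) T (2 * T)).ncard : ℝ) ≤
      (Un χ t 16 T (2 * T)).ncard + (Un χ t 16 (2 * T + 0) (2 * T + 0 + W)).ncard := by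
    exact_mod_cast h6.trans (Set.ncard_union_le _ _)
  have e1 : (3 * (Fintype.card (Fin 16) : ℝ) / (3 * (Fintype.card (Fin 16) : ℝ) + 1)) = 48 / 49 := by
    rw [Fintype.card_fin]; norm_num
  rw [e1] at m1
  -- the pair
  have h8 := m2 0 1 (by decide)
  have e2 : ((0 : Fin 16) : ℕ) = 0 := rfl
  have e3 : ((1 : Fin 16) : ℕ) = 1 := rfl
  simp only [e2, e3, Nat.cast_zero, Nat.cast_one, zero_mul, zero_add, one_mul] at h8
  set Z0 := zset (LS χ W) T (2 * T) with hZ0
  set Z1 := zset (LS χ (t + W)) T (2 * T) with hZ1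
  have f3 : Z0.Finite := fin_shift hχ _ _ _ (by linarith)
  have f4 : Z1.Finite := fin_shift hχ _ _ _ (by linarith)
  have f5 : (Yn χ t T (2 * T)).Finite := by
    refine (zfin hχ T (2 * T) (by linarith)).subset ?_
    rintro s ⟨g1, g2, g3, g4, g5, -⟩
    exact ⟨g1, g2, g3, g4, g5⟩
  have f6 := zfin hχ (2 * T + 0) (2 * T + 0 + W) (by linarith)
  have h9 : (Z0 ∪ Z1).ncard ≤ Z1.ncard + (Z0 \ Z1).ncard := by
    have : Z0 ∪ Z1 = Z1 ∪ (Z0 \ Z1) := by
      rw [Set.union_sdiff_self, Set.union_comm]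
    rw [this]
    exact Set.ncard_union_le _ _
  have h10 : (Z0 \ Z1).ncard ≤ (Yn χ t T (2 * T) ∪ zset (DirichletCharacter.LFunction χ) (2 * T + 0)
      (2 * T + 0 + W)).ncard := by
    rw [← Set.ncard_image_of_injective _ (shift_inj W)]
    refine Set.ncard_le_ncard ?_ (f5.union f6)
    rintro _ ⟨s, ⟨⟨g1, g2, g3, g4, g5⟩, hs⟩, rfl⟩
    have g6 : DirichletCharacter.LFunction χ (s + I * W + I * t) ≠ 0 := by
      intro h
      refine hs ⟨g1, g2, g3, g4, ?_⟩
      unfold LS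
      rw [← h]
      congr 1
      push_cast; ring
    have k3 : 0 < (s + I * W).re := by rw [re_shift]; exact g1
    have k4 : (s + I * W).re < 1 := by rw [re_shift]; exact g2
    have k5 : T < (s + I * W).im := by rw [im_shift]; linarith
    have k6 : (s + I * W).im ≤ 2 * T + W := by rw [im_shift]; linarith
    by_cases c1 : (s + I * W).im ≤ 2 * T
    · exact Or.inl ⟨k3, k4, k5, c1, g5, g6⟩
    · push Not at c1
      exact Or.inr ⟨k3, k4, by linarith, by linarith, g5⟩
  have h11 : ((Z0 ∪ Z1).ncard : ℝ) ≤ Z1.ncard + ((Yn χ t T (2 * T)).ncard +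
      (zset (DirichletCharacter.LFunction χ) (2 * T + 0) (2 * T + 0 + W)).ncard) := by
    exact_mod_cast h9.trans (Nat.add_le_add_left (h10.trans (Set.ncard_union_le _ _)) _)
  push_cast at h1
  nlinarith

end one

end Pool.Agent.H474.SET
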