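import Pool.Agent.H474.SHP.Sel
import Pool.Agent.H474.SYM.Inp

/-!
# Selberg orthonormality of primitive Dirichlet characters with twists `n^(-iτ)`
-/

set_option autoImplicit false

open Complex Filter Topology
open scoped ComplexConjugate
open scoped ArithmeticFunction.vonMangoldt

namespace Pool.Agent.H474.SET

open Pool.Agent.Y772.SL (av av_add av_mul av_congr)
open Pool.Agent.Y772.ND (av_sum norm_nI)
open Pool.Agent.H474.SHP (tw tw_norm)
open Pool.Agent.H474.SYM (dir_zero dir_norm dir_star cl_eq)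

lemma av_tsum {u : ℕ → ℂ} {σ : ℝ} (hσ : 0 < σ) (τ : ℝ) (hs : Summable fun n : ℕ => u n * Λ n * (n : ℂ) ^ (-(1 + σ + I * τ) : ℂ)) :
    av (fun n => (u n * tw τ n).re) σ =
      σ * (∑' n : ℕ, u n * Λ n * (n : ℂ) ^ (-(1 + σ + I * τ) : ℂ)).re := by
  unfold av
  rw [Complex.re_tsum hs]
  congr 1
  refine tsum_congr fun n => ?_
  rcases eq_or_ne n 0 with rfl | hn
  · simp
  · have h0 : (n : ℂ) ≠ 0 := by exact_mod_cast hn
    have e1 : (n : ℂ) ^ (-(1 + σ + I * τ) : ℂ) = (((n : ℝ) ^ (-(1 + σ)) : ℝ) : ℂ) * (n : ℂ) ^ (-(I * τ) : ℂ) := by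
      rw [Complex.ofReal_cpow (Nat.cast_nonneg n)]
      rw [show (-(1 + σ + I * τ) : ℂ) = ((-(1 + σ) : ℝ) : ℂ) + (-(I * τ)) by push_cast; ring,
        Complex.cpow_add _ _ h0]
      push_cast
      rfl
    have e2 : tw τ n = (n : ℂ) ^ (-(I * τ) : ℂ) := by
      unfold tw
      rw [if_neg hn]
    show (u n * tw τ n).re * Λ n * (n : ℝ) ^ (-(1 + σ)) = _
    rw [e2, e1]
    have e3 : u n * (Λ n : ℂ) * ((((n : ℝ) ^ (-(1 + σ)) : ℝ) : ℂ) * (n : ℂ) ^ (-(I * τ) : ℂ)) =
        ((Λ n * (n : ℝ) ^ (-(1 + σ)) : ℝ) : ℂ) * (u n * (n : ℂ) ^ (-(I * τ) : ℂ)) := by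
      push_cast; ring
    rw [e3, Complex.re_ofReal_mul]
    ring

/-- a nontrivial character, or a nontrivial twist -/
lemma av_dir {N : ℕ} [NeZero N] (ψ : DirichletCharacter ℂ N) (τ : ℝ) (h : ψ ≠ 1 ∨ τ ≠ 0) :
    Tendsto (av fun k => (ψ k * tw τ k).re) (𝓝[>] 0) (𝓝 0) := by
  set s0 : ℂ := 1 + I * τ with hs0
  have h1 : ψ ≠ 1 ∨ s0 ≠ 1 := by
    rcases h with h | h
    · exact Or.inl h
    · refine Or.inr fun h' => h ?_
      have := congrArg Complex.im h'
      simpa [hs0] using this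
  have han : AnalyticAt ℂ (DirichletCharacter.LFunction ψ) s0 := by
    by_cases hψ : ψ = 1
    · have h2 : s0 ≠ 1 := by
        rcases h1 with h1 | h1
        · exact absurd hψ h1
        · exact h1
      have h3 : DifferentiableOn ℂ (DirichletCharacter.LFunction ψ) {1}ᶜ := fun z hz =>
        (DirichletCharacter.differentiableAt_LFunction ψ z (Or.inl hz)).differentiableWithinAt
      exact h3.analyticAt (isOpen_compl_singleton.mem_nhds h2)
    · exact (DirichletCharacter.differentiable_LFunction hψ).analyticAt s0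
  have hne : DirichletCharacter.LFunction ψ s0 ≠ 0 :=
    DirichletCharacter.LFunction_ne_zero_of_one_le_re ψ h1 (by simp [hs0])
  have hc : ContinuousAt (fun z => -deriv (DirichletCharacter.LFunction ψ) z / DirichletCharacter.LFunction ψ z) s0 :=
    (han.deriv.continuousAt.neg).div han.continuousAt hne
  have ht : Tendsto (fun σ : ℝ => (1 + σ + I * τ : ℂ)) (𝓝[>] 0) (𝓝 s0) := by
    have h2 : Continuous (fun σ : ℝ => (1 + σ + I * τ : ℂ)) := by fun_prop
    have h3 := h2.tendsto 0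
    simp only [ofReal_zero, add_zero] at h3
    exact h3.mono_left nhdsWithin_le_nhds
  have h4 := hc.tendsto.comp ht
  have h5 : Tendsto (fun σ : ℝ => (σ : ℂ)) (𝓝[>] 0) (𝓝 0) := by
    have h2 : Continuous (fun σ : ℝ => (σ : ℂ)) := by fun_prop
    have h3 := h2.tendsto 0
    rw [ofReal_zero] at h3
    exact h3.mono_left nhdsWithin_le_nhds
  have h6 := h5.mul h4
  rw [zero_mul] at h6
  have h7 := (Complex.continuous_re.tendsto 0).comp h6
  rw [zero_re] at h7
  refine h7.congr' ?_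
  filter_upwards [self_mem_nhdsWithin] with σ hσ
  have hσ' : (0 : ℝ) < σ := hσ
  have hre : 1 < (1 + σ + I * τ : ℂ).re := by simp; exact hσ'
  have e1 := DirichletCharacter.LSeries_twist_vonMangoldt_eq ψ hre
  have e2 : LSeries ((fun n : ℕ => ψ n) * fun n : ℕ => ((Λ n : ℝ) : ℂ)) (1 + σ + I * τ) =
      ∑' n : ℕ, ψ n * Λ n * (n : ℂ) ^ (-(1 + σ + I * τ) : ℂ) := by
    unfold LSeries
    refine tsum_congr fun n => ?_
    rw [H370.DL.term_eq_mul_cpow _ (by simp)]
    simp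
  have hsum : Summable fun n : ℕ => ψ n * Λ n * (n : ℂ) ^ (-(1 + σ + I * τ) : ℂ) := by
    have h8 := DirichletCharacter.LSeriesSummable_twist_vonMangoldt ψ hre
    refine h8.congr fun n => ?_
    rw [H370.DL.term_eq_mul_cpow _ (by simp)]
    simp
  rw [av_tsum hσ' τ hsum, ← e2, e1]
  simp only [Function.comp_apply]
  rw [Complex.re_ofReal_mul, DirichletCharacter.deriv_LFunction_eq_deriv_LSeries ψ hre,
    DirichletCharacter.LFunction_eq_LSeries ψ hre]

/-- the prime number theorem, weak form -/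
lemma av_one : Tendsto (av fun _ => (1 : ℝ)) (𝓝[>] 0) (𝓝 1) := by
  have hc := ArithmeticFunction.vonMangoldt.continuousOn_LFunctionResidueClassAux (q := 1) (1 : ZMod 1)
  have he := ArithmeticFunction.vonMangoldt.eqOn_LFunctionResidueClassAux (q := 1) (a := (1 : ZMod 1)) isUnit_one
  have ht : Tendsto (fun σ : ℝ => (1 + σ : ℂ)) (𝓝[>] 0) (𝓝[{s : ℂ | 1 ≤ s.re}] 1) := by
    refine tendsto_nhdsWithin_iff.2 ⟨?_, ?_⟩
    · have h2 : Continuous (fun σ : ℝ => (1 + σ : ℂ)) := by fun_prop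
      have h3 := h2.tendsto 0
      simp only [ofReal_zero, add_zero] at h3
      exact h3.mono_left nhdsWithin_le_nhds
    · filter_upwards [self_mem_nhdsWithin] with σ hσ
      have hσ' : (0 : ℝ) < σ := hσ
      simp; exact hσ'.le
  have h4 := (hc 1 (by simp)).tendsto.comp ht
  have h5 : Tendsto (fun σ : ℝ => (σ : ℂ)) (𝓝[>] 0) (𝓝 0) := by
    have h2 : Continuous (fun σ : ℝ => (σ : ℂ)) := by fun_prop
    have h3 := h2.tendsto 0
    rw [ofReal_zero] at h3
    exact h3.mono_left nhdsWithin_le_nhds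
  have h6 := (h5.mul h4).add_const 1
  rw [zero_mul, zero_add] at h6
  have h7 := (Complex.continuous_re.tendsto 1).comp h6
  rw [one_re] at h7
  refine h7.congr' ?_
  filter_upwards [self_mem_nhdsWithin] with σ hσ
  have hσ' : (0 : ℝ) < σ := hσ
  have hre : 1 < (1 + σ : ℂ).re := by simp; exact hσ'
  simp only [Function.comp_apply]
  rw [he hre]
  have hσ0 : (σ : ℂ) ≠ 0 := by exact_mod_cast hσ'.ne'
  have e3 : (σ : ℂ) * (LSeries (fun n : ℕ => ((ArithmeticFunction.vonMangoldt.residueClass (1 : ZMod 1) n : ℝ) : ℂ)) (1 + σ) -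
      ((Nat.totient 1 : ℕ) : ℂ)⁻¹ / (1 + σ - 1)) + 1 =
      σ * LSeries (fun n : ℕ => ((ArithmeticFunction.vonMangoldt.residueClass (1 : ZMod 1) n : ℝ) : ℂ)) (1 + σ) := by
    have e7 : (1 + σ - 1 : ℂ) = σ := by ring
    rw [Nat.totient_one, e7, Nat.cast_one, inv_one, mul_sub, mul_one_div_cancel hσ0]
    ring
  have hrc : ∀ n : ℕ, ArithmeticFunction.vonMangoldt.residueClass (1 : ZMod 1) n = Λ n := by
    intro n
    unfold ArithmeticFunction.vonMangoldt.residueClass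
    rw [Set.indicator_of_mem]
    exact Subsingleton.elim _ _
  have e4 : LSeries (fun n : ℕ => ((ArithmeticFunction.vonMangoldt.residueClass (1 : ZMod 1) n : ℝ) : ℂ)) (1 + σ) =
      ∑' n : ℕ, (1 : ℂ) * Λ n * (n : ℂ) ^ (-(1 + σ + I * (0 : ℝ)) : ℂ) := by
    unfold LSeries
    refine tsum_congr fun n => ?_
    rw [H370.DL.term_eq_mul_cpow _ (by simp [hrc]), hrc]
    simp
  have hsum : Summable fun n : ℕ => (1 : ℂ) * Λ n * (n : ℂ) ^ (-(1 + σ + I * (0 : ℝ)) : ℂ) := by
    have h8 := ArithmeticFunction.LSeriesSummable_vonMangoldt hre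
    refine h8.congr fun n => ?_
    rw [H370.DL.term_eq_mul_cpow _ (by simp)]
    simp
  have e5 := av_tsum (u := fun _ => 1) hσ' 0 hsum
  have e6 : av (fun n => ((1 : ℂ) * tw 0 n).re) σ = av (fun _ => (1 : ℝ)) σ := by
    unfold av
    congr 1
    refine tsum_congr fun n => ?_
    rcases eq_or_ne n 0 with rfl | hn
    · simp
    · show ((1 : ℂ) * tw 0 n).re * Λ n * (n : ℝ) ^ (-(1 + σ)) = 1 * Λ n * (n : ℝ) ^ (-(1 + σ))
      unfold tw
      rw [if_neg hn]
      simp
  rw [e6, ← e4] at e5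
  rw [e5, ← Complex.re_ofReal_mul, ← e3]

lemma pair_ne {m n : ℕ} [NeZero m] [NeZero n] {ψ : DirichletCharacter ℂ m} {φ : DirichletCharacter ℂ n}
    (hψ : ψ.IsPrimitive) (hφ : φ.IsPrimitive) (h : ¬ ∀ k : ℕ, ψ k = φ k) :
    DirichletCharacter.changeLevel (Nat.dvd_mul_right m n) ψ *
      (DirichletCharacter.changeLevel (Nat.dvd_mul_left n m) φ)⁻¹ ≠ 1 := by
  haveI : NeZero (m * n) := ⟨(Nat.mul_pos (NeZero.pos m) (NeZero.pos n)).ne'⟩
  intro he
  rw [mul_inv_eq_one] at he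
  have h1 : ψ.conductor = φ.conductor := by
    rw [← DirichletCharacter.conductor_changeLevel ψ (Nat.dvd_mul_right m n),
      ← DirichletCharacter.conductor_changeLevel φ (Nat.dvd_mul_left n m), he]
  rw [DirichletCharacter.IsPrimitive] at hψ hφ
  rw [hψ, hφ] at h1
  subst h1
  have h2 := DirichletCharacter.changeLevel_injective _ he
  exact h fun k => by rw [h2]

lemma tw_mul (σ τ : ℝ) {p : ℕ} (hp : p ≠ 0) : tw σ p * conj (tw τ p) = tw (σ - τ) p := by
  have hp0 : (p : ℂ) ≠ 0 := by exact_mod_cast hp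
  simp only [tw, if_neg hp]
  have hc : conj ((p : ℂ) ^ (-(I * (τ : ℂ)))) = (p : ℂ) ^ (I * (τ : ℂ)) := by
    have harg : ((p : ℕ) : ℂ).arg ≠ Real.pi := by
      rw [Complex.natCast_arg]
      exact Real.pi_pos.ne
    have h5 := Complex.cpow_conj ((p : ℕ) : ℂ) (-(I * (τ : ℂ))) harg
    rw [Complex.conj_natCast] at h5
    rw [← h5]
    congr 1
    simp
  rw [hc, ← Complex.cpow_add _ _ hp0]
  congr 1
  push_cast; ring

lemma pair_lim {m n : ℕ} [NeZero m] [NeZero n] {ψ : DirichletCharacter ℂ m} {φ : DirichletCharacter ℂ n}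
    (hψ : ψ.IsPrimitive) (hφ : φ.IsPrimitive) (σ τ : ℝ) (h : (¬ ∀ k : ℕ, ψ k = φ k) ∨ σ ≠ τ) :
    Tendsto (av fun k => ((ψ k * tw σ k) * conj (φ k * tw τ k)).re) (𝓝[>] 0) (𝓝 0) := by
  haveI : NeZero (m * n) := ⟨(Nat.mul_pos (NeZero.pos m) (NeZero.pos n)).ne'⟩
  have hX : DirichletCharacter.changeLevel (Nat.dvd_mul_right m n) ψ *
      (DirichletCharacter.changeLevel (Nat.dvd_mul_left n m) φ)⁻¹ ≠ 1 ∨ σ - τ ≠ 0 := by
    rcases h with h | h
    · exact Or.inl (pair_ne hψ hφ h)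
    · exact Or.inr (sub_ne_zero.2 h)
  refine av_congr (A := 1) (B := 1) (fun k => ?_) (fun k => ?_) (m * n).primeFactors
    (fun p hp hpS => ?_) (av_dir _ (σ - τ) hX)
  · refine (Complex.abs_re_le_norm _).trans ?_
    rw [norm_mul, Complex.norm_conj, norm_mul, norm_mul]
    exact mul_le_one₀ (mul_le_one₀ (DirichletCharacter.norm_le_one ψ _) (norm_nonneg _) (tw_norm _ k))
      (by positivity) (mul_le_one₀ (DirichletCharacter.norm_le_one φ _) (norm_nonneg _) (tw_norm _ k))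
  · refine (Complex.abs_re_le_norm _).trans ?_
    rw [norm_mul]
    exact mul_le_one₀ (DirichletCharacter.norm_le_one _ _) (norm_nonneg _) (tw_norm _ k)
  · have hc : p.Coprime (m * n) := by
      rw [hp.coprime_iff_not_dvd]
      intro hd
      exact hpS (Nat.mem_primeFactors.2 ⟨hp, hd, NeZero.ne _⟩)
    congr 1
    rw [map_mul, mul_mul_mul_comm, tw_mul σ τ hp.ne_zero, MulChar.mul_apply, ← dir_star,
      cl_eq ψ _ hc, cl_eq φ _ hc]

/-- **Selberg orthonormality** of primitive characters with twists -/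
theorem sel_dir {ι : Type} [Fintype ι] {q : ι → ℕ} [∀ i, NeZero (q i)]
    (χ : ∀ i, DirichletCharacter ℂ (q i)) (hχ : ∀ i, (χ i).IsPrimitive) (τ : ι → ℝ)
    (hne : ∀ i j, i ≠ j → (¬ ∀ n : ℕ, χ i n = χ j n) ∨ τ i ≠ τ j) (lam : ι → ℝ) :
    Tendsto (av fun n => ‖∑ i, (lam i : ℂ) * (χ i n * tw (τ i) n)‖ ^ 2) (𝓝[>] 0)
      (𝓝 (∑ i, lam i ^ 2)) := by
  classical
  have hb : ∀ i (n : ℕ), ‖χ i n * tw (τ i) n‖ ≤ 1 := fun i n => by
    rw [norm_mul]
    exact mul_le_one₀ (DirichletCharacter.norm_le_one (χ i) _) (norm_nonneg _) (tw_norm _ n)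
  -- the pairs
  let u : ι × ι → ℕ → ℝ := fun ij n =>
    ((χ ij.1 n * tw (τ ij.1) n) * conj (χ ij.2 n * tw (τ ij.2) n)).re
  have hu : ∀ ij n, |u ij n| ≤ 1 := by
    intro ij n
    refine (Complex.abs_re_le_norm _).trans ?_
    rw [norm_mul, Complex.norm_conj]
    exact mul_le_one₀ (hb _ n) (norm_nonneg _) (hb _ n)
  have hlim : ∀ ij, Tendsto (av (u ij)) (𝓝[>] 0) (𝓝 (if ij.1 = ij.2 then 1 else 0)) := by
    rintro ⟨i, j⟩
    by_cases hij : i = j
    · subst hij
      rw [if_pos rfl]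
      refine av_congr (B := 1) (v := fun _ => 1) (hu _) (fun _ => by simp) (q i).primeFactors
        (fun p hp hpS => ?_) av_one
      have hc : p.Coprime (q i) := by
        rw [hp.coprime_iff_not_dvd]
        intro hd
        exact hpS (Nat.mem_primeFactors.2 ⟨hp, hd, NeZero.ne _⟩)
      have hp0 : p ≠ 0 := hp.ne_zero
      show ((χ i p * tw (τ i) p) * conj (χ i p * tw (τ i) p)).re = 1
      rw [Complex.mul_conj, Complex.ofReal_re, Complex.normSq_eq_norm_sq, norm_mul, dir_norm hc]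
      unfold tw
      rw [if_neg hp0, norm_nI p hp0]
      norm_num
    · rw [if_neg hij]
      exact pair_lim (hχ i) (hχ j) (τ i) (τ j) (hne i j hij)
  have h2 := av_sum (Finset.univ : Finset (ι × ι))
    (fun ij n => (lam ij.1 * lam ij.2) * u ij n)
    (fun ij => |lam ij.1 * lam ij.2| * 1) (fun ij => (lam ij.1 * lam ij.2) * (if ij.1 = ij.2 then 1 else 0))
    (fun ij _ k => by rw [abs_mul]; exact mul_le_mul_of_nonneg_left (hu ij k) (abs_nonneg _))
    (fun ij _ => by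
      refine ((hlim ij).const_mul (lam ij.1 * lam ij.2)).congr' ?_
      filter_upwards with x
      rw [av_mul])
  have h3 : ∑ ij : ι × ι, (lam ij.1 * lam ij.2) * (if ij.1 = ij.2 then (1 : ℝ) else 0) = ∑ i, lam i ^ 2 := by
    rw [Fintype.sum_prod_type]
    refine Finset.sum_congr rfl fun i _ => ?_
    rw [Finset.sum_eq_single i]
    · rw [if_pos rfl]; ring
    · intro j _ hj
      rw [if_neg (Ne.symm hj), mul_zero]
    · intro h; exact absurd (Finset.mem_univ i) h
  rw [h3] at h2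
  have e : (fun n => ∑ ij : ι × ι, (lam ij.1 * lam ij.2) * u ij n) =
      fun n => ‖∑ i, (lam i : ℂ) * (χ i n * tw (τ i) n)‖ ^ 2 := by
    funext n
    have e0 : ∀ z : ℂ, ‖z‖ ^ 2 = (z * conj z).re := by
      intro z
      rw [Complex.mul_conj, Complex.ofReal_re, Complex.normSq_eq_norm_sq]
    rw [e0, map_sum, Finset.sum_mul_sum, Fintype.sum_prod_type, re_sum]
    refine Finset.sum_congr rfl fun i _ => ?_
    rw [re_sum]
    refine Finset.sum_congr rfl fun j _ => ?_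
    simp only [u]
    rw [map_mul (starRingEnd ℂ) (lam j : ℂ), Complex.conj_ofReal,
      show (lam i : ℂ) * (χ i n * tw (τ i) n) * ((lam j : ℂ) * conj (χ j n * tw (τ j) n)) =
        ((lam i * lam j : ℝ) : ℂ) * ((χ i n * tw (τ i) n) * conj (χ j n * tw (τ j) n)) by
        push_cast; ring, Complex.re_ofReal_mul]
  rw [← e]
  exact h2.2

end Pool.Agent.H474.SET
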