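import Pool.Agent.H474.SET.Av
import Pool.Agent.H474.SHP.Main

/-!
# Lower bounds for the number of points with given multiplicities, Dirichlet L-functions
-/

set_option autoImplicit false

open Complex Filter Topology
open scoped ComplexConjugate
open scoped ArithmeticFunction.vonMangoldt

namespace Pool.Agent.H474.SET

open Pool.Agent.H474.SHP (tw tw_norm DDh sh1 sh2 UU)
open Pool.Agent.Y772.ND (DD')
open Pool.Agent.H474.SYM (goodE_dir)
open H370 (mult)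

/-- the shifted L-function -/
noncomputable def LS {q : ℕ} [NeZero q] (χ : DirichletCharacter ℂ q) (τ : ℝ) : ℂ → ℂ :=
  fun s => DirichletCharacter.LFunction χ (s + I * τ)

theorem goodE_LS {q : ℕ} [NeZero q] {χ : DirichletCharacter ℂ q} (hχ : χ.IsPrimitive) {τ : ℝ}
    (hτ : 0 ≤ τ) : ∃ A : ℝ, 1 ≤ A ∧ W388.GoodE 1 A 1 (LS χ τ) (fun n => (χ n * tw τ n) * (Λ n : ℂ)) := by
  obtain ⟨A, hA, hF⟩ := goodE_dir hχ
  obtain ⟨A', hA', hF'⟩ := Pool.Agent.Y923.ND.t_SHIFT 1 A _ _ le_rfl hA hF τ hτ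
  refine ⟨A', hA', ?_⟩
  have e : (fun n : ℕ => (χ n * tw τ n) * (Λ n : ℂ)) =
      fun n : ℕ => (χ n * (Λ n : ℂ)) * (n : ℂ) ^ (-(I * (τ : ℂ))) := by
    funext n
    simp only [tw]
    by_cases hn : n = 0
    · subst hn; simp
    · rw [if_neg hn]; ring
  rw [e]
  exact hF'

/-- **the two counting bounds** -/
theorem counts {ι : Type} [Fintype ι] {q : ι → ℕ} [∀ i, NeZero (q i)]
    (χ : ∀ i, DirichletCharacter ℂ (q i)) (hχ : ∀ i, (χ i).IsPrimitive) (τ : ι → ℝ)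
    (hτ : ∀ i, 0 ≤ τ i) (hne : ∀ i j, i ≠ j → (¬ ∀ n : ℕ, χ i n = χ j n) ∨ τ i ≠ τ j)
    {ε : ℝ} (hε : 0 < ε) :
    ∀ᶠ T : ℝ in atTop, ∀ lam : ι → ℝ, lam ≠ 0 →
      ((∑ i, lam i) ^ 2 / ((∑ i, lam i) ^ 2 + (∑ i, lam i ^ 2) / 3) - ε) * UU T ≤
        ((DDh (fun i => LS (χ i) (τ i)) lam T).ncard : ℝ) ∧
      (1 / 12 - ε) * UU T ≤ ((DD' (fun i => LS (χ i) (τ i)) lam T).ncard : ℝ) := by
  classical
  choose A hA hF using fun i => goodE_LS (hχ i) (hτ i)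
  have hβ : ∀ i (n : ℕ), ‖χ i n * tw (τ i) n‖ ≤ (1 : ℝ) := fun i n => by
    rw [norm_mul]
    exact mul_le_one₀ (DirichletCharacter.norm_le_one (χ i) _) (norm_nonneg _) (tw_norm _ n)
  have hs := sel_dir χ hχ τ hne
  have s1 := sh1 (K := 1) zero_le_one (d := fun _ => 1) (fun _ => le_rfl) hA hF hβ
    (fun lam => ∑ i, lam i ^ 2) hs hε
  have s2 := sh2 (K := 1) zero_le_one (d := fun _ => 1) (fun _ => le_rfl) hA hF hβ
    (fun lam => ∑ i, lam i ^ 2) hs hε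
  filter_upwards [s1, s2] with T s1 s2 lam hlam
  have hR0 : 0 < ∑ i, lam i ^ 2 := by
    obtain ⟨i, hi⟩ := Function.ne_iff.1 hlam
    have hi' : lam i ≠ 0 := hi
    refine Finset.sum_pos' (fun _ _ => sq_nonneg _) ⟨i, Finset.mem_univ i, by positivity⟩
  set R := Real.sqrt (∑ i, lam i ^ 2) with hR
  have hRpos : 0 < R := Real.sqrt_pos.2 hR0
  have hR2 : R ^ 2 = ∑ i, lam i ^ 2 := Real.sq_sqrt hR0.le
  set x : ι → ℝ := fun i => lam i / R with hx
  have hxs : ∑ i, x i ^ 2 = 1 := by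
    have e : ∀ i, x i ^ 2 = lam i ^ 2 / R ^ 2 := fun i => by simp only [hx]; rw [div_pow]
    rw [Finset.sum_congr rfl fun i _ => e i, ← Finset.sum_div, hR2, div_self hR0.ne']
  have hxi : ∀ i, |x i| ≤ 1 := by
    intro i
    have h1 : x i ^ 2 ≤ ∑ j, x j ^ 2 :=
      Finset.single_le_sum (f := fun j => x j ^ 2) (fun j _ => sq_nonneg _) (Finset.mem_univ i)
    rw [hxs] at h1
    exact abs_le_one_iff_mul_self_le_one.2 (by nlinarith)
  have g1 := s1 x hxi hxs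
  have g2 := s2 x hxi hxs
  have hsx : ∀ s : ℂ, (∑ i, x i * (mult (LS (χ i) (τ i)) s : ℝ) ≠ 0 ↔
      ∑ i, lam i * (mult (LS (χ i) (τ i)) s : ℝ) ≠ 0) := by
    intro s
    have e : ∑ i, x i * (mult (LS (χ i) (τ i)) s : ℝ) =
        (∑ i, lam i * (mult (LS (χ i) (τ i)) s : ℝ)) / R := by
      rw [Finset.sum_div]
      refine Finset.sum_congr rfl fun i _ => ?_
      simp only [hx]; ring
    rw [e, Ne, div_eq_zero_iff, or_iff_left hRpos.ne']
  have hdx : ∑ i, x i * (1 : ℝ) = (∑ i, lam i) / R := by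
    rw [Finset.sum_div]
    exact Finset.sum_congr rfl fun i _ => by simp only [hx]; ring
  constructor
  · have e1 : DDh (fun i => LS (χ i) (τ i)) x T = DDh (fun i => LS (χ i) (τ i)) lam T := by
      ext s
      simp only [DDh, Set.mem_setOf_eq, hsx]
    rw [e1, hdx] at g1
    refine le_trans (le_of_eq ?_) g1
    have e2 : (∑ i, lam i) ^ 2 / ((∑ i, lam i) ^ 2 + (∑ i, lam i ^ 2) / 3) =
        ((∑ i, lam i) / R) ^ 2 / (((∑ i, lam i) / R) ^ 2 + 1 / 3) := by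
      rw [← hR2]; field_simp
    rw [e2]
    rfl
  · have e1 : DD' (fun i => LS (χ i) (τ i)) x T = DD' (fun i => LS (χ i) (τ i)) lam T := by
      ext s
      simp only [DD', Set.mem_setOf_eq, hsx]
    rw [e1] at g2
    exact g2

end Pool.Agent.H474.SET
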