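import Pool.Agent.H474.SET.Core

/-!
# Unions and intersections of the sets of zeros
-/

set_option autoImplicit false

open Complex Filter Topology
open scoped ComplexConjugate
open scoped ArithmeticFunction.vonMangoldt

namespace Pool.Agent.H474.SET

open Pool.Agent.H474.SHP (tw tw_norm DDh sh1 sh2 UU)
open Pool.Agent.Y772.ND (DD')
open Pool.Agent.H474.SYM (goodE_dir)
open H370 (mult zset NN)

/-- counting argument for two finite sets with multiplicities -/
lemma comb (A B S : Finset ℂ) (m n : ℂ → ℕ) (hA : A ⊆ S) (hB : B ⊆ S) (hm : ∀ s ∈ A, 1 ≤ m s)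
    (hn : ∀ s ∈ B, 1 ≤ n s) (hm0 : ∀ s ∈ S, s ∉ A → m s = 0) (hn0 : ∀ s ∈ S, s ∉ B → n s = 0) :
    ((S.filter fun s => m s ≠ n s).card : ℝ) ≤
      2 * S.card - 2 * A.card - 2 * B.card + ∑ s ∈ A, (m s : ℝ) + ∑ s ∈ B, (n s : ℝ) := by
  classical
  have e1 : ∀ (X : Finset ℂ), X ⊆ S → (X.card : ℝ) = ∑ s ∈ S, if s ∈ X then (1 : ℝ) else 0 := by
    intro X hX
    rw [Finset.sum_ite_mem, Finset.inter_eq_right.2 hX]
    simp
  have e2 : ∀ (X : Finset ℂ) (f : ℂ → ℕ), X ⊆ S → (∀ s ∈ S, s ∉ X → f s = 0) →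
      ∑ s ∈ X, (f s : ℝ) = ∑ s ∈ S, (f s : ℝ) := by
    intro X f hX h0
    exact Finset.sum_subset hX fun s hs hsX => by rw [h0 s hs hsX]; simp
  have e3 : ((S.filter fun s => m s ≠ n s).card : ℝ) = ∑ s ∈ S, if m s ≠ n s then (1 : ℝ) else 0 := by
    rw [Finset.card_filter]
    push_cast
    rfl
  have e4 : (S.card : ℝ) = ∑ s ∈ S, (1 : ℝ) := by simp
  rw [e3, e1 A hA, e1 B hB, e2 A m hA hm0, e2 B n hB hn0, e4, Finset.mul_sum, Finset.mul_sum,
    Finset.mul_sum, ← Finset.sum_sub_distrib, ← Finset.sum_sub_distrib, ← Finset.sum_add_distrib,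
    ← Finset.sum_add_distrib]
  refine Finset.sum_le_sum fun s hs => ?_
  by_cases h1 : s ∈ A <;> by_cases h2 : s ∈ B
  · have h3 := hm s h1
    have h4 := hn s h2
    have h3' : (1 : ℝ) ≤ m s := by exact_mod_cast h3
    have h4' : (1 : ℝ) ≤ n s := by exact_mod_cast h4
    rw [if_pos h1, if_pos h2]
    split_ifs with h5
    · have h6 : 3 ≤ m s + n s := by omega
      have h6' : (3 : ℝ) ≤ m s + n s := by exact_mod_cast h6
      linarith
    · linarith
  · have h3 := hm s h1
    have h3' : (1 : ℝ) ≤ m s := by exact_mod_cast h3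
    have h4' : (0 : ℝ) ≤ n s := Nat.cast_nonneg _
    rw [if_pos h1, if_neg h2]
    split_ifs <;> linarith
  · have h4 := hn s h2
    have h4' : (1 : ℝ) ≤ n s := by exact_mod_cast h4
    have h3' : (0 : ℝ) ≤ m s := Nat.cast_nonneg _
    rw [if_neg h1, if_pos h2]
    split_ifs <;> linarith
  · have h4' : (0 : ℝ) ≤ n s := Nat.cast_nonneg _
    have h3' : (0 : ℝ) ≤ m s := Nat.cast_nonneg _
    rw [if_neg h1, if_neg h2]
    split_ifs <;> linarith

lemma UU_def (T : ℝ) : UU T = T / (2 * Real.pi) * Real.log T := rfl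

lemma NN_le_UU {A : ℝ} {F : ℂ → ℂ} {a : ℕ → ℂ} (hA : 1 ≤ A) (hF : W388.GoodE 1 A 1 F a) {ε : ℝ}
    (hε : 0 < ε) : ∀ᶠ T : ℝ in atTop, (NN F T (2 * T) : ℝ) ≤ (1 + ε) * UU T := by
  obtain ⟨C, hC⟩ := Pool.Agent.Y431.ND.t_NASY 1 A F a le_rfl hA hF
  filter_upwards [hC, Real.tendsto_log_atTop.eventually_ge_atTop (|C| * (2 * Real.pi) / ε),
    eventually_gt_atTop 1] with T h1 h2 h3
  have hT : 0 < T := by linarith
  have hπ := Real.pi_pos
  have h4 := (abs_le.1 h1).2
  rw [div_le_iff₀ hε] at h2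
  have h5 : C * T ≤ ε * UU T := by
    rw [UU_def]
    have h6 : C * T ≤ |C| * T := mul_le_mul_of_nonneg_right (le_abs_self C) hT.le
    refine h6.trans ?_
    have h7 : |C| * T * (2 * Real.pi) ≤ ε * (T * Real.log T) := by
      have := mul_le_mul_of_nonneg_left h2 hT.le
      linarith
    have h8 : ε * (T / (2 * Real.pi) * Real.log T) = ε * (T * Real.log T) / (2 * Real.pi) := by ring
    rw [h8, le_div_iff₀ (by positivity)]
    exact h7
  have h9 : 1 / (2 * Real.pi) * T * Real.log T = UU T := by rw [UU_def]; ring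
  linarith

/-- few zeros in short ranges -/
lemma short {q : ℕ} [NeZero q] {χ : DirichletCharacter ℂ q} (hχ : χ.IsPrimitive) {c : ℝ} (hc : 1 ≤ c)
    (α h : ℝ) {ε : ℝ} (hε : 0 < ε) : ∀ᶠ T : ℝ in atTop,
    ((zset (DirichletCharacter.LFunction χ) (c * T + α) (c * T + α + h)).ncard : ℝ) ≤ ε * UU T := by
  obtain ⟨A, hA, hF⟩ := goodE_dir hχ
  obtain ⟨C, hC, hz⟩ := W388.zcount_long_D 1 A le_rfl hA
  obtain ⟨k, hk⟩ : ∃ k : ℝ, k = |h| + 1 := ⟨_, rfl⟩
  have hk1 : 1 ≤ k := by rw [hk]; linarith [abs_nonneg h]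
  have hπ := Real.pi_pos
  filter_upwards [eventually_ge_atTop (C * k * (4 * Real.pi) / ε), eventually_ge_atTop (|α| + 3),
    eventually_ge_atTop (c + 2), eventually_ge_atTop (|α| + k + 1)] with T h1 h2 h3 h4
  have hT : 0 < T := by linarith [abs_nonneg α]
  have h5 : 3 ≤ c * T + α := by nlinarith [neg_abs_le α]
  have hfin := W388.zset_finite_D hA le_rfl hF (c * T + α) (c * T + α + k) (by linarith)
  have h6 : (zset (DirichletCharacter.LFunction χ) (c * T + α) (c * T + α + h)).ncard ≤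
      (zset (DirichletCharacter.LFunction χ) (c * T + α) (c * T + α + k)).ncard := by
    refine Set.ncard_le_ncard ?_ hfin
    rintro s ⟨g1, g2, g3, g4, g5⟩
    exact ⟨g1, g2, g3, by linarith [le_abs_self h], g5⟩
  have h7 := hz 1 _ _ le_rfl hF (c * T + α) (c * T + α + k) h5 (by linarith)
  have h8 : (zset (DirichletCharacter.LFunction χ) (c * T + α) (c * T + α + k)).ncard ≤
      NN (DirichletCharacter.LFunction χ) (c * T + α) (c * T + α + k) := by
    have := W388.LocD.card_le_NN_D hA le_rfl hF (c * T + α) (c * T + α + k) (by linarith)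
    rwa [← Set.ncard_eq_toFinset_card _ hfin] at this
  have h9 : ((zset (DirichletCharacter.LFunction χ) (c * T + α) (c * T + α + h)).ncard : ℝ) ≤
      C * (c * T + α + k - (c * T + α)) * Real.log (1 * (c * T + α + k)) := by
    refine le_trans ?_ h7
    exact_mod_cast h6.trans h8
  refine h9.trans ?_
  have h10 : Real.log (1 * (c * T + α + k)) ≤ 2 * Real.log T := by
    have : Real.log (1 * (c * T + α + k)) ≤ Real.log (T * T) := by
      refine Real.log_le_log (by nlinarith) ?_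
      nlinarith [le_abs_self α]
    rw [Real.log_mul hT.ne' hT.ne'] at this
    linarith
  have h11 : C * (c * T + α + k - (c * T + α)) = C * k := by ring
  rw [h11, UU_def]
  have h12 : C * k * Real.log (1 * (c * T + α + k)) ≤ C * k * (2 * Real.log T) :=
    mul_le_mul_of_nonneg_left h10 (by positivity)
  refine h12.trans ?_
  rw [div_le_iff₀ hε] at h1
  have hL : 0 ≤ Real.log T := Real.log_nonneg (by linarith)
  have h13 := mul_le_mul_of_nonneg_right h1 hL
  have h14 : ε * (T / (2 * Real.pi) * Real.log T) = T * ε * Real.log T / (2 * Real.pi) := by ring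
  rw [h14, le_div_iff₀ (by positivity)]
  linarith

section fam

variable {ι : Type} [Fintype ι] {q : ι → ℕ} [∀ i, NeZero (q i)]

/-- **union and pairs**, nonnegative shifts -/
theorem unionpair (χ : ∀ i, DirichletCharacter ℂ (q i)) (hχ : ∀ i, (χ i).IsPrimitive) (τ : ι → ℝ)
    (hτ : ∀ i, 0 ≤ τ i) (hne : ∀ i j, i ≠ j → (¬ ∀ n : ℕ, χ i n = χ j n) ∨ τ i ≠ τ j)
    (hι : 0 < Fintype.card ι) {ε : ℝ} (hε : 0 < ε) :
    ∀ᶠ T : ℝ in atTop,
      (3 * Fintype.card ι / (3 * Fintype.card ι + 1) - ε) * UU T ≤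
        ((⋃ i, zset (LS (χ i) (τ i)) T (2 * T)).ncard : ℝ) ∧
      ∀ i j, i ≠ j → ((zset (LS (χ i) (τ i)) T (2 * T)).ncard : ℝ) +
          (zset (LS (χ j) (τ j)) T (2 * T)).ncard ≤
        ((zset (LS (χ i) (τ i)) T (2 * T) ∪ zset (LS (χ j) (τ j)) T (2 * T)).ncard : ℝ) +
          (23 / 24 + ε) * UU T := by
  classical
  choose A hA hF using fun i => goodE_LS (hχ i) (hτ i)
  have hc := counts χ hχ τ hτ hne (ε := ε / 2) (by positivity)
  have hN : ∀ᶠ T : ℝ in atTop, ∀ i, (NN (LS (χ i) (τ i)) T (2 * T) : ℝ) ≤ (1 + ε / 2) * UU T :=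
    eventually_all.2 fun i => NN_le_UU (hA i) (hF i) (by positivity)
  filter_upwards [hc, hN, eventually_gt_atTop 1] with T hc hN hT
  have hT0 : 0 < T := by linarith
  have hU : 0 ≤ UU T := Pool.Agent.H474.SHP.UU_nn hT.le
  have hfin : ∀ i, (zset (LS (χ i) (τ i)) T (2 * T)).Finite := fun i =>
    W388.zset_finite_D (hA i) le_rfl (hF i) T (2 * T) hT.le
  have hm0 : ∀ i (s : ℂ), T < s.im → LS (χ i) (τ i) s ≠ 0 → mult (LS (χ i) (τ i)) s = 0 := fun i s hs h0 =>
    Pool.Agent.Y772.ND.mult_zero (hF i) (by linarith) h0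
  have hm1 : ∀ i (s : ℂ), T < s.im → LS (χ i) (τ i) s = 0 → 1 ≤ mult (LS (χ i) (τ i)) s := fun i s hs h0 =>
    W388.LocD.mult_pos_D (hA i) (hF i) (by linarith) h0
  have hNN : ∀ i, NN (LS (χ i) (τ i)) T (2 * T) = ∑ s ∈ (hfin i).toFinset, mult (LS (χ i) (τ i)) s := by
    intro i
    unfold H370.NN
    exact finsum_mem_eq_finite_toFinset_sum _ (hfin i)
  constructor
  · obtain ⟨i0⟩ : Nonempty ι := Fintype.card_pos_iff.1 hι
    have h1 := (hc (fun _ => 1) (fun h => by
      have := congrFun h i0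
      simp at this)).1
    have e1 : ∑ _i : ι, (1 : ℝ) = Fintype.card ι := by simp
    have e2 : ∑ _i : ι, (1 : ℝ) ^ 2 = Fintype.card ι := by simp
    rw [e1, e2] at h1
    have hr : (0 : ℝ) < Fintype.card ι := by exact_mod_cast hι
    have e3 : (Fintype.card ι : ℝ) ^ 2 / ((Fintype.card ι : ℝ) ^ 2 + Fintype.card ι / 3) =
        3 * Fintype.card ι / (3 * Fintype.card ι + 1) := by
      field_simp
    rw [e3] at h1
    have h2 : (DDh (fun i => LS (χ i) (τ i)) (fun _ => 1) T).ncard ≤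
        (⋃ i, zset (LS (χ i) (τ i)) T (2 * T)).ncard := by
      refine Set.ncard_le_ncard ?_ (Set.finite_iUnion hfin)
      rintro s ⟨g1, g2, g3, g4, g5⟩
      obtain ⟨i, -, hi⟩ := Finset.exists_ne_zero_of_sum_ne_zero g5
      refine Set.mem_iUnion.2 ⟨i, by linarith, g2, g3, g4, ?_⟩
      by_contra h0
      rw [hm0 i s g3 h0] at hi
      simp at hi
    have h2' : ((DDh (fun i => LS (χ i) (τ i)) (fun _ => 1) T).ncard : ℝ) ≤
        ((⋃ i, zset (LS (χ i) (τ i)) T (2 * T)).ncard : ℝ) := by exact_mod_cast h2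
    refine le_trans ?_ (h1.trans h2')
    refine mul_le_mul_of_nonneg_right ?_ hU
    linarith
  · intro i j hij
    have h1 := (hc (fun k => (if k = i then 1 else 0) - (if k = j then 1 else 0)) (fun h => by
      have := congrFun h i
      simp [hij] at this)).2
    have h5 : ∀ X : ι → ℝ, ∑ k, ((if k = i then (1 : ℝ) else 0) - (if k = j then 1 else 0)) * X k =
        X i - X j := by
      intro X
      simp [sub_mul, Finset.sum_sub_distrib]
    set Zi := (hfin i).toFinset with hZi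
    set Zj := (hfin j).toFinset with hZj
    have hS : DD' (fun i => LS (χ i) (τ i)) (fun k => (if k = i then 1 else 0) - (if k = j then 1 else 0)) T =
        (((Zi ∪ Zj).filter fun s => mult (LS (χ i) (τ i)) s ≠ mult (LS (χ j) (τ j)) s : Finset ℂ) : Set ℂ) := by
      ext s
      simp only [DD', Set.mem_ofPred_eq, h5, Finset.coe_filter, Finset.mem_union, hZi, hZj,
        Set.Finite.mem_toFinset]
      constructor
      · rintro ⟨g1, g2, g3, g4, g5⟩
        have g6 : mult (LS (χ i) (τ i)) s ≠ mult (LS (χ j) (τ j)) s := by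
          intro h
          apply g5
          rw [h, sub_self]
        refine ⟨?_, g6⟩
        by_contra hcon
        rw [not_or] at hcon
        have k1 : LS (χ i) (τ i) s ≠ 0 := fun h => hcon.1 ⟨g1, g2, g3, g4, h⟩
        have k2 : LS (χ j) (τ j) s ≠ 0 := fun h => hcon.2 ⟨g1, g2, g3, g4, h⟩
        exact g6 (by rw [hm0 i s g3 k1, hm0 j s g3 k2])
      · rintro ⟨g1, g2⟩
        have g3 : 0 < s.re ∧ s.re < 1 ∧ T < s.im ∧ s.im ≤ 2 * T := by
          rcases g1 with ⟨k1, k2, k3, k4, -⟩ | ⟨k1, k2, k3, k4, -⟩ <;> exact ⟨k1, k2, k3, k4⟩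
        refine ⟨g3.1, g3.2.1, g3.2.2.1, g3.2.2.2, ?_⟩
        intro h
        apply g2
        have := sub_eq_zero.1 h
        exact_mod_cast this
    rw [hS, Set.ncard_coe_finset] at h1
    have h6 := comb Zi Zj (Zi ∪ Zj) (mult (LS (χ i) (τ i))) (mult (LS (χ j) (τ j)))
      Finset.subset_union_left Finset.subset_union_right
      (fun s hs => by
        rw [hZi, Set.Finite.mem_toFinset] at hs
        exact hm1 i s hs.2.2.1 hs.2.2.2.2)
      (fun s hs => by
        rw [hZj, Set.Finite.mem_toFinset] at hs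
        exact hm1 j s hs.2.2.1 hs.2.2.2.2)
      (fun s hs hsi => by
        rw [Finset.mem_union, hZi, hZj, Set.Finite.mem_toFinset, Set.Finite.mem_toFinset] at hs
        rw [hZi, Set.Finite.mem_toFinset] at hsi
        rcases hs with hs | hs
        · exact absurd hs hsi
        · refine hm0 i s hs.2.2.1 fun h => hsi ⟨hs.1, hs.2.1, hs.2.2.1, hs.2.2.2.1, h⟩)
      (fun s hs hsi => by
        rw [Finset.mem_union, hZi, hZj, Set.Finite.mem_toFinset, Set.Finite.mem_toFinset] at hs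
        rw [hZj, Set.Finite.mem_toFinset] at hsi
        rcases hs with hs | hs
        · refine hm0 j s hs.2.2.1 fun h => hsi ⟨hs.1, hs.2.1, hs.2.2.1, hs.2.2.2.1, h⟩
        · exact absurd hs hsi)
    have h7 : ∑ s ∈ Zi, (mult (LS (χ i) (τ i)) s : ℝ) ≤ (1 + ε / 2) * UU T := by
      have := hN i
      rw [hNN i] at this
      push_cast at this
      exact this
    have h8 : ∑ s ∈ Zj, (mult (LS (χ j) (τ j)) s : ℝ) ≤ (1 + ε / 2) * UU T := by
      have := hN j
      rw [hNN j] at this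
      push_cast at this
      exact this
    have h9 : (zset (LS (χ i) (τ i)) T (2 * T)).ncard = Zi.card := Set.ncard_eq_toFinset_card _ (hfin i)
    have h10 : (zset (LS (χ j) (τ j)) T (2 * T)).ncard = Zj.card := Set.ncard_eq_toFinset_card _ (hfin j)
    have h11 : (zset (LS (χ i) (τ i)) T (2 * T) ∪ zset (LS (χ j) (τ j)) T (2 * T)).ncard = (Zi ∪ Zj).card := by
      rw [← Set.ncard_coe_finset, Finset.coe_union, hZi, hZj, Set.Finite.coe_toFinset,
        Set.Finite.coe_toFinset]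
    rw [h9, h10, h11]
    nlinarith
end fam

end Pool.Agent.H474.SET
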